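import Pool.Agent.H78.UN2.Defs

/-! Rows FRM, XC, HC of the board `un2_modules`. -/

namespace Pool.Agent.H22.UN2

open Finset Pool.Agent.H78.UN Pool.Agent.H78.UN2

/-- The clause which is falsified exactly by the assignments with the pattern `x` on the scope
`τ`. -/
def cl {n k : ℕ} (τ : Fin k ↪ Fin n) (x : Fin k → Bool) : Clause (Fin n) :=
  Finset.univ.image (fun i => (τ i, !(x i)))

theorem falsified_cl {n k : ℕ} (τ : Fin k ↪ Fin n) (x : Fin k → Bool) (z : Fin n → Bool) :
    Falsified (cl τ x) z ↔ z ∘ τ = x := by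
  constructor
  · intro hz
    funext i
    have h1 := hz (τ i, !(x i)) (Finset.mem_image.2 ⟨i, Finset.mem_univ _, rfl⟩)
    simp only [Function.comp_apply]
    simp only at h1
    revert h1
    cases z (τ i) <;> cases x i <;> simp
  · intro hz l hl
    obtain ⟨i, _, hi⟩ := Finset.mem_image.1 hl
    rw [← hi, ← hz]
    simp only [Function.comp_apply]
    cases z (τ i) <;> simp

theorem card_cl {n k : ℕ} (τ : Fin k ↪ Fin n) (x : Fin k → Bool) : (cl τ x).card = k := by
  rw [cl, Finset.card_image_of_injective, Finset.card_univ, Fintype.card_fin]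
  intro i j hij
  exact τ.injective (Prod.mk.inj hij).1

theorem fst_cl {n k : ℕ} (τ : Fin k ↪ Fin n) (x : Fin k → Bool) :
    (cl τ x).image Prod.fst = Finset.univ.map τ := by
  ext y
  simp only [cl, mem_image, mem_univ, true_and, mem_map]
  constructor
  · rintro ⟨p, ⟨i, rfl⟩, rfl⟩
    exact ⟨i, rfl⟩
  · rintro ⟨i, rfl⟩
    exact ⟨_, ⟨i, rfl⟩, rfl⟩

/-- FRM: the formula. -/
theorem pf_FRM : Pool.Agent.H78.UN2.T_FRM := by
  intro n M k L l τ h b hh hinj
  classical
  refine ⟨{ sc := scp τ
            vio := fun c z => h (z ∘ τ c) = b c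
            loc := ?_
            far := ?_ },
    (Finset.univ : Finset (Fin M)).biUnion (fun c =>
      ((Finset.univ : Finset (Fin k → Bool)).filter (fun x => h x = b c)).image (cl (τ c))),
    rfl, ?_, ?_, ?_, ?_⟩
  · intro c z z' hzz hv
    have h1 : z ∘ τ c = z' ∘ τ c := by
      funext i
      exact hzz (τ c i) (Finset.mem_map.2 ⟨i, Finset.mem_univ _, rfl⟩)
    rw [← h1]
    exact hv
  · intro c z z' hv hv' hx
    obtain ⟨x, hx1, hx2⟩ := hx
    have hne : z ∘ τ c ≠ z' ∘ τ c := by
      intro he
      obtain ⟨i, _, hi⟩ := Finset.mem_map.1 hx1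
      apply hx2
      rw [← hi]
      exact congrFun he i
    have h1 : 2 * l < hammingDist (z ∘ τ c) (z' ∘ τ c) := by
      by_contra hlt
      exact hh _ _ hne (by omega) (hv.trans hv'.symm)
    have h2 : hammingDist (z ∘ τ c) (z' ∘ τ c) ≤
        ((scp τ c).filter (fun x => z x ≠ z' x)).card := by
      unfold hammingDist
      rw [← Finset.card_map (τ c)]
      apply Finset.card_le_card
      intro y hy
      obtain ⟨i, hi, hiy⟩ := Finset.mem_map.1 hy
      rw [Finset.mem_filter] at hi
      rw [Finset.mem_filter]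
      refine ⟨Finset.mem_map.2 ⟨i, Finset.mem_univ _, hiy⟩, ?_⟩
      rw [← hiy]
      exact hi.2
    omega
  · intro C hC
    obtain ⟨c, _, hc⟩ := Finset.mem_biUnion.1 hC
    obtain ⟨x, _, hx⟩ := Finset.mem_image.1 hc
    rw [← hx]
    exact card_cl _ _
  · exact le_trans Finset.card_biUnion_le (Finset.sum_le_sum fun c _ => Finset.card_image_le)
  · intro z
    refine Finset.card_le_card_of_injOn (fun c => cl (τ c) (z ∘ τ c)) ?_ ?_
    · intro c hc
      have hc' := (Finset.mem_filter.1 hc).2
      refine Finset.mem_filter.2 ⟨Finset.mem_biUnion.2 ⟨c, Finset.mem_univ _,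
        Finset.mem_image.2 ⟨z ∘ τ c, Finset.mem_filter.2 ⟨Finset.mem_univ _, hc'⟩, rfl⟩⟩,
        (falsified_cl _ _ _).2 rfl⟩
    · intro c _ c' _ hcc
      apply hinj
      have h1 := congrArg (fun s : Clause (Fin n) => s.image Prod.fst) hcc
      simp only [fst_cl] at h1
      exact h1
  · intro C hC
    obtain ⟨c, _, hc⟩ := Finset.mem_biUnion.1 hC
    obtain ⟨x, hx1, hx⟩ := Finset.mem_image.1 hc
    refine ⟨c, ?_⟩
    intro z hzC
    rw [← hx] at hzC
    have h4 := (falsified_cl _ _ _).1 hzC
    show h (z ∘ τ c) = b c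
    rw [h4]
    exact (Finset.mem_filter.1 hx1).2

/-- there is a permutation which maps a set to another one of the same size -/
theorem exists_perm {n : ℕ} (A B : Finset (Fin n)) (h : A.card = B.card) :
    ∃ σ : Equiv.Perm (Fin n), A.map σ.toEmbedding = B := by
  classical
  have e : {x // x ∈ A} ≃ {x // x ∈ B} := Finset.equivOfCardEq h
  refine ⟨e.extendSubtype, ?_⟩
  refine Finset.eq_of_subset_of_card_le ?_ ?_
  · intro y hy
    obtain ⟨x, hx, rfl⟩ := Finset.mem_map.1 hy
    exact e.extendSubtype_mem x hx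
  · rw [Finset.card_map, h]

open Classical in
/-- the families with two given equal scopes -/
theorem xc_pair (n M k : ℕ) (c c' : Fin M) (hcc : c ≠ c') :
    (Finset.univ.filter (fun τ : Fin M → (Fin k ↪ Fin n) => scp τ c = scp τ c')).card *
      n.choose k ≤ Fintype.card (Fin M → (Fin k ↪ Fin n)) := by
  have hσ : ∀ A B : Finset (Fin n), ∃ σ : Equiv.Perm (Fin n), A.card = B.card →
      A.map σ.toEmbedding = B := by
    intro A B
    by_cases h : A.card = B.card
    · obtain ⟨σ, hσ⟩ := exists_perm A B h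
      exact ⟨σ, fun _ => hσ⟩
    · exact ⟨1, fun h' => absurd h' h⟩
  choose σ hσ using hσ
  have hcard : (Finset.powersetCard k (Finset.univ : Finset (Fin n))).card = n.choose k := by
    rw [Finset.card_powersetCard, Finset.card_univ, Fintype.card_fin]
  rw [← hcard, ← Finset.card_product, ← Finset.card_univ]
  have hsc : ∀ (τ : Fin M → (Fin k ↪ Fin n)) (c : Fin M), (scp τ c).card = k := by
    intro τ c
    rw [scp, Finset.card_map, Finset.card_univ, Fintype.card_fin]
  refine Finset.card_le_card_of_injOn (fun p : (Fin M → (Fin k ↪ Fin n)) × Finset (Fin n) =>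
    Function.update p.1 c' ((p.1 c').trans (σ (scp p.1 c') p.2).toEmbedding))
    (fun _ _ => Finset.mem_coe.2 (Finset.mem_univ _)) ?_
  rintro ⟨τ, s⟩ h1 ⟨τ', s'⟩ h2 heq
  simp only [Finset.coe_product, Set.mem_prod, Finset.mem_coe, Finset.mem_filter,
    Finset.mem_univ, true_and, Finset.mem_powersetCard] at h1 h2
  obtain ⟨h1, -, hs⟩ := h1
  obtain ⟨h2, -, hs'⟩ := h2
  simp only at heq
  have hne : ∀ j, j ≠ c' → τ j = τ' j := by
    intro j hj
    have h3 := congrFun heq j
    rwa [Function.update_of_ne hj, Function.update_of_ne hj] at h3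
  have hA : scp τ c' = scp τ' c' := by
    rw [← h1, ← h2]
    unfold scp
    rw [hne c hcc]
  have h3 := congrFun heq c'
  rw [Function.update_self, Function.update_self] at h3
  have h4 : s = s' := by
    have h5 := hσ (scp τ c') s (by rw [hsc, hs])
    have h6 := hσ (scp τ' c') s' (by rw [hsc, hs'])
    rw [← h5, ← h6]
    unfold scp at *
    rw [Finset.map_map, Finset.map_map]
    rw [h3]
  subst h4
  rw [← hA] at h3
  have h7 : τ c' = τ' c' := by
    ext i
    have h8 := DFunLike.congr_fun h3 i
    simp only [Function.Embedding.trans_apply, Equiv.coe_toEmbedding,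
      EmbeddingLike.apply_eq_iff_eq] at h8
    rw [h8]
  refine Prod.ext ?_ rfl
  funext j
  by_cases hj : j = c'
  · rw [hj]
    exact h7
  · exact hne j hj

theorem pf_XC : Pool.Agent.H78.UN2.T_XC := by
  classical
  intro n M k hM
  rcases Nat.eq_zero_or_pos (n.choose k) with h0 | h0
  · have hM0 : M = 0 := by
      rw [h0] at hM
      nlinarith
    subst hM0
    have h1 : (Finset.univ.filter (fun τ : Fin 0 → (Fin k ↪ Fin n) =>
        ¬ Function.Injective (fun c => scp τ c))) = ∅ := by
      refine Finset.filter_eq_empty_iff.2 fun τ _ h => h fun c => c.elim0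
    rw [h1]
    simp
  have hsub : (Finset.univ.filter (fun τ : Fin M → (Fin k ↪ Fin n) =>
      ¬ Function.Injective (fun c => scp τ c))) ⊆
      ((Finset.univ : Finset (Fin M × Fin M)).filter (fun p => p.1 ≠ p.2)).biUnion
        (fun p => Finset.univ.filter (fun τ : Fin M → (Fin k ↪ Fin n) =>
          scp τ p.1 = scp τ p.2)) := by
    intro τ hτ
    have h1 := (Finset.mem_filter.1 hτ).2
    simp only [Function.Injective] at h1
    push Not at h1
    obtain ⟨c, c', h2, h3⟩ := h1
    exact Finset.mem_biUnion.2 ⟨(c, c'), Finset.mem_filter.2 ⟨Finset.mem_univ _, h3⟩,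
      Finset.mem_filter.2 ⟨Finset.mem_univ _, h2⟩⟩
  have h1 := (Finset.card_le_card hsub).trans Finset.card_biUnion_le
  have h2 : (Finset.univ.filter (fun τ : Fin M → (Fin k ↪ Fin n) =>
      ¬ Function.Injective (fun c => scp τ c))).card * n.choose k ≤
      M ^ 2 * Fintype.card (Fin M → (Fin k ↪ Fin n)) := by
    refine (Nat.mul_le_mul_right _ h1).trans ?_
    rw [Finset.sum_mul]
    refine (Finset.sum_le_card_nsmul _ _ _ fun p hp =>
      xc_pair n M k p.1 p.2 (Finset.mem_filter.1 hp).2).trans ?_
    rw [smul_eq_mul]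
    refine Nat.mul_le_mul_right _ ?_
    refine (Finset.card_filter_le _ _).trans ?_
    rw [Finset.card_univ, Fintype.card_prod, Fintype.card_fin, pow_two]
  refine Nat.le_of_mul_le_mul_right ?_ h0
  calc 4 * (Finset.univ.filter (fun τ : Fin M → (Fin k ↪ Fin n) =>
      ¬ Function.Injective (fun c => scp τ c))).card * n.choose k
      = 4 * ((Finset.univ.filter (fun τ : Fin M → (Fin k ↪ Fin n) =>
      ¬ Function.Injective (fun c => scp τ c))).card * n.choose k) := by ring
    _ ≤ 4 * (M ^ 2 * Fintype.card (Fin M → (Fin k ↪ Fin n))) := Nat.mul_le_mul_left _ h2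
    _ = (4 * M ^ 2) * Fintype.card (Fin M → (Fin k ↪ Fin n)) := by ring
    _ ≤ n.choose k * Fintype.card (Fin M → (Fin k ↪ Fin n)) := Nat.mul_le_mul_right _ hM
    _ = _ := mul_comm _ _

/-- greedy colouring -/
theorem exists_coloring {α : Type*} [Fintype α] [DecidableEq α] (r : α → α → Prop)
    [DecidableRel r] (hr : ∀ a b, r a b → r b a) (hrr : ∀ a, ¬ r a a) {L : ℕ}
    (hL : ∀ a, (univ.filter fun b => r a b).card < L) (hLpos : 0 < L) :
    ∃ c : α → Fin L, ∀ a b, r a b → c a ≠ c b := by
  suffices h : ∀ S : Finset α, ∃ c : α → Fin L, ∀ a ∈ S, ∀ b ∈ S, r a b → c a ≠ c b by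
    obtain ⟨c, hc⟩ := h univ
    exact ⟨c, fun a b hab => hc a (mem_univ _) b (mem_univ _) hab⟩
  intro S
  induction S using Finset.induction_on with
  | empty => exact ⟨fun _ => ⟨0, hLpos⟩, fun a ha => absurd ha (notMem_empty a)⟩
  | insert s S hs ih =>
    obtain ⟨c, hc⟩ := ih
    have h1 : ((univ.filter fun b => r s b).image c).card < (univ : Finset (Fin L)).card := by
      rw [card_univ, Fintype.card_fin]
      exact card_image_le.trans_lt (hL s)
    obtain ⟨x, -, hx⟩ := Finset.exists_mem_notMem_of_card_lt_card h1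
    refine ⟨Function.update c s x, ?_⟩
    intro a ha b hb hab
    by_cases has : a = s
    · by_cases hbs : b = s
      · rw [has, hbs] at hab
        exact absurd hab (hrr s)
      · rw [has, Function.update_self, Function.update_of_ne hbs]
        rintro rfl
        apply hx
        rw [mem_image]
        exact ⟨b, mem_filter.2 ⟨mem_univ _, by rw [← has]; exact hab⟩, rfl⟩
    · by_cases hbs : b = s
      · rw [hbs, Function.update_self, Function.update_of_ne has]
        rintro rfl
        apply hx
        rw [mem_image]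
        exact ⟨a, mem_filter.2 ⟨mem_univ _, by rw [← hbs]; exact hr _ _ hab⟩, rfl⟩
      · rw [Function.update_of_ne has, Function.update_of_ne hbs]
        exact hc a ((mem_insert.1 ha).resolve_left has) b ((mem_insert.1 hb).resolve_left hbs) hab

theorem pf_HC : Pool.Agent.H78.UN2.T_HC := by
  classical
  intro k d
  have hball : ∀ x : Fin k → Bool,
      (univ.filter fun y : Fin k → Bool => hammingDist x y ≤ d).card ≤ Cr k (d + 1) := by
    intro x
    have h1 : (univ.filter fun y : Fin k → Bool => hammingDist x y ≤ d).card ≤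
        ((Finset.range (d + 1)).biUnion fun i =>
          Finset.powersetCard i (univ : Finset (Fin k))).card := by
      refine Finset.card_le_card_of_injOn (fun y => univ.filter fun i => x i ≠ y i) ?_ ?_
      · intro y hy
        have hy' := (Finset.mem_filter.1 hy).2
        refine Finset.mem_coe.2 (Finset.mem_biUnion.2 ⟨hammingDist x y,
          Finset.mem_range.2 (by omega), ?_⟩)
        rw [Finset.mem_powersetCard]
        exact ⟨subset_univ _, rfl⟩
      · intro y _ y' _ hyy
        funext i
        have h2 := congrArg (fun s : Finset (Fin k) => i ∈ s) hyy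
        simp only [Finset.mem_filter, Finset.mem_univ, true_and, ne_eq, eq_iff_iff] at h2
        revert h2
        cases x i <;> cases y i <;> cases y' i <;> simp
    refine h1.trans (Finset.card_biUnion_le.trans (le_of_eq ?_))
    unfold Cr
    refine Finset.sum_congr rfl fun i _ => ?_
    rw [Finset.card_powersetCard, Finset.card_univ, Fintype.card_fin]
  have hlt : ∀ x : Fin k → Bool,
      (univ.filter fun y : Fin k → Bool => x ≠ y ∧ hammingDist x y ≤ d).card < Cr k (d + 1) := by
    intro x
    refine lt_of_lt_of_le (Finset.card_lt_card ?_) (hball x)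
    refine ⟨fun y hy => Finset.mem_filter.2 ⟨Finset.mem_univ _, (Finset.mem_filter.1 hy).2.2⟩,
      fun hsub => ?_⟩
    have h1 : x ∈ univ.filter fun y : Fin k → Bool => hammingDist x y ≤ d :=
      Finset.mem_filter.2 ⟨Finset.mem_univ _, by rw [hammingDist_self]; exact Nat.zero_le _⟩
    exact (Finset.mem_filter.1 (hsub h1)).2.1 rfl
  obtain ⟨c, hc⟩ := exists_coloring (fun x y : Fin k → Bool => x ≠ y ∧ hammingDist x y ≤ d)
    (fun x y h => ⟨h.1.symm, by rw [hammingDist_comm]; exact h.2⟩) (fun x h => h.1 rfl) hlt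
    (lt_of_le_of_lt (Nat.zero_le _) (hlt fun _ => false))
  exact ⟨c, fun x y h1 h2 => hc x y ⟨h1, h2⟩⟩

end Pool.Agent.H22.UN2
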