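import Pool.Agent.H78.UN2.Defs

/-! Row XG of the board `un2_modules`. -/

namespace Pool.Agent.H22.UN2

open Finset Pool.Agent.H78.UN Pool.Agent.H78.UN2

theorem exp_neg_le {x : ℝ} (hx : 0 ≤ x) : Real.exp (-x) ≤ 1 - x + x ^ 2 / 2 := by
  have h1 := Real.quadratic_le_exp_of_nonneg hx
  have h2 : 0 < 1 + x + x ^ 2 / 2 := by positivity
  rw [Real.exp_neg]
  refine (inv_anti₀ h2 h1).trans ?_
  rw [inv_le_iff_one_le_mul₀ h2]
  nlinarith [sq_nonneg (x ^ 2)]

/-- the exponential moment of the number of coincidences -/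
theorem moment (M L : ℕ) (hL : 1 ≤ L) (e : Fin M → Fin L) (ε : ℝ) :
    ∑ b : Fin M → Fin L, Real.exp (-ε * ((univ.filter (fun c => e c = b c)).card : ℝ)) ≤
      (L : ℝ) ^ M * Real.exp (-(M / L * (1 - Real.exp (-ε)))) := by
  classical
  have hL0 : (0 : ℝ) < L := by exact_mod_cast hL
  have h1 : ∀ b : Fin M → Fin L,
      Real.exp (-ε * ((univ.filter (fun c => e c = b c)).card : ℝ)) =
      ∏ c, (if e c = b c then Real.exp (-ε) else 1) := by
    intro b
    rw [prod_ite, prod_const, prod_const_one, mul_one, mul_comm, Real.exp_nat_mul]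
  have h2 : ∀ c : Fin M, (∑ l : Fin L, if e c = l then Real.exp (-ε) else 1) =
      L * (1 - 1 / L * (1 - Real.exp (-ε))) := by
    intro c
    have h4 : (∑ l : Fin L, if e c = l then Real.exp (-ε) else 1) =
        ∑ l : Fin L, (1 - if e c = l then (1 - Real.exp (-ε)) else 0) := by
      refine sum_congr rfl fun l _ => ?_
      split_ifs <;> ring
    rw [h4, sum_sub_distrib, Finset.sum_ite_eq, if_pos (mem_univ _), sum_const, card_univ,
      Fintype.card_fin, nsmul_eq_mul]
    field_simp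
  rw [sum_congr rfl fun b _ => h1 b,
    ← Fintype.prod_sum (fun (c : Fin M) (l : Fin L) => if e c = l then Real.exp (-ε) else 1),
    prod_congr rfl fun c _ => h2 c, prod_const, card_univ, Fintype.card_fin, mul_pow]
  refine mul_le_mul_of_nonneg_left ?_ (by positivity)
  have h5 : 0 ≤ 1 - 1 / L * (1 - Real.exp (-ε)) := by
    rcases le_or_gt (1 - Real.exp (-ε)) 0 with h | h
    · have : 1 / (L : ℝ) * (1 - Real.exp (-ε)) ≤ 0 :=
        mul_nonpos_of_nonneg_of_nonpos (by positivity) h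
      linarith
    · have h6 : 1 / (L : ℝ) ≤ 1 := by
        rw [div_le_one hL0]
        exact_mod_cast hL
      have h7 : 1 / (L : ℝ) * (1 - Real.exp (-ε)) ≤ 1 * (1 - Real.exp (-ε)) :=
        mul_le_mul_of_nonneg_right h6 h.le
      have h8 := Real.exp_pos (-ε)
      linarith
  calc (1 - 1 / L * (1 - Real.exp (-ε))) ^ M
      ≤ (Real.exp (-(1 / L * (1 - Real.exp (-ε))))) ^ M :=
        pow_le_pow_left₀ h5 (by
          have := Real.add_one_le_exp (-(1 / L * (1 - Real.exp (-ε))))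
          linarith) M
    _ = _ := by
        rw [← Real.exp_nat_mul]
        congr 1
        ring

/-- the number of the colourings with few coincidences -/
theorem bad_card (a n L M : ℕ) (ha : 1 ≤ a) (hL : 1 ≤ L) (hM : M = L * (6 * a ^ 2 * n))
    (e : Fin M → Fin L) (B : Finset (Fin M → Fin L))
    (hB : ∀ b ∈ B, a * (univ.filter (fun c => e c = b c)).card < (a - 1) * (6 * a ^ 2 * n)) :
    (B.card : ℝ) ≤ (L : ℝ) ^ M * Real.exp (-(3 * n)) := by
  have hL0 : (0 : ℝ) < L := by exact_mod_cast hL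
  have ha0 : (0 : ℝ) < a := by exact_mod_cast ha
  set ε : ℝ := 1 / a with hε
  have hε0 : 0 < ε := by positivity
  have hεa : a * ε = 1 := by rw [hε]; field_simp
  have h1 := moment M L hL e ε
  obtain ⟨N, hN⟩ : ∃ N : ℝ, N = 6 * a ^ 2 * n := ⟨_, rfl⟩
  have hN0 : 0 ≤ N := by rw [hN]; positivity
  have h2 : ((M : ℕ) : ℝ) / L = N := by
    rw [hM, hN]
    push_cast
    field_simp
  rw [h2] at h1
  have h3 : (B.card : ℝ) * Real.exp (-ε * ((1 - ε) * N)) ≤
      (L : ℝ) ^ M * Real.exp (-(N * (1 - Real.exp (-ε)))) := by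
    refine le_trans ?_ h1
    calc (B.card : ℝ) * Real.exp (-ε * ((1 - ε) * N))
        = ∑ _b ∈ B, Real.exp (-ε * ((1 - ε) * N)) := by
          rw [sum_const, nsmul_eq_mul]
      _ ≤ ∑ b ∈ B, Real.exp (-ε * ((univ.filter (fun c => e c = b c)).card : ℝ)) := by
          refine sum_le_sum fun b hb => Real.exp_le_exp.2 ?_
          have h4 := hB b hb
          have h5 : (a : ℝ) * ((univ.filter (fun c => e c = b c)).card : ℝ) ≤
              (a - 1) * N := by
            have h6 : ((a * (univ.filter (fun c => e c = b c)).card : ℕ) : ℝ) ≤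
                (((a - 1) * (6 * a ^ 2 * n) : ℕ) : ℝ) := by exact_mod_cast h4.le
            push_cast [Nat.cast_sub ha] at h6
            rw [hN]
            exact h6
          have h6 : ((univ.filter (fun c => e c = b c)).card : ℝ) ≤ (1 - ε) * N := by
            have h7 := mul_le_mul_of_nonneg_left h5 hε0.le
            nlinarith
          nlinarith
      _ ≤ _ := sum_le_sum_of_subset_of_nonneg (subset_univ _) fun b _ _ => (Real.exp_pos _).le
  have h4 : (B.card : ℝ) ≤ (L : ℝ) ^ M *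
      (Real.exp (-(N * (1 - Real.exp (-ε)))) * Real.exp (ε * ((1 - ε) * N))) := by
    have h5 := mul_le_mul_of_nonneg_right h3 (Real.exp_pos (ε * ((1 - ε) * N))).le
    rw [mul_assoc, ← Real.exp_add] at h5
    have h6 : -ε * ((1 - ε) * N) + ε * ((1 - ε) * N) = 0 := by ring
    rw [h6, Real.exp_zero, mul_one] at h5
    refine h5.trans (le_of_eq ?_)
    exact mul_assoc _ _ _
  refine h4.trans (mul_le_mul_of_nonneg_left ?_ (by positivity))
  rw [← Real.exp_add]
  refine Real.exp_le_exp.2 ?_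
  have h5 := exp_neg_le hε0.le
  have h7 : N * (ε ^ 2 / 2) ≤ N * (1 - Real.exp (-ε) - ε * (1 - ε)) :=
    mul_le_mul_of_nonneg_left (by nlinarith) hN0
  have h8 : N * (ε ^ 2 / 2) = 3 * n := by
    rw [hN, hε]
    field_simp
    ring
  nlinarith

theorem four_pow (n : ℕ) : (2 : ℝ) ^ n * Real.exp (-(3 * n)) * 4 ^ n ≤ 1 := by
  rw [Real.exp_neg, mul_assoc, mul_comm (Real.exp (3 * n))⁻¹, ← mul_assoc, ← div_eq_mul_inv,
    div_le_one (Real.exp_pos _), ← mul_pow]
  have h4 : (8 : ℝ) ≤ Real.exp 3 := by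
    have h5 := Real.exp_one_gt_d9
    have h6 : Real.exp 3 = Real.exp 1 ^ 3 := by
      rw [← Real.exp_nat_mul]
      norm_num
    rw [h6]
    calc (8 : ℝ) ≤ (2.7182818283 : ℝ) ^ 3 := by norm_num
      _ ≤ _ := pow_le_pow_left₀ (by norm_num) h5.le 3
  calc ((2 : ℝ) * 4) ^ n = 8 ^ n := by norm_num
    _ ≤ Real.exp 3 ^ n := pow_le_pow_left₀ (by norm_num) h4 n
    _ = Real.exp (3 * n) := by
        rw [← Real.exp_nat_mul]
        congr 1
        ring

/-- the average of a function of one colour -/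
theorem avg (M L : ℕ) (w : Fin L → ℕ) (c : Fin M) :
    L * ∑ b : Fin M → Fin L, w (b c) = L ^ M * ∑ l, w l := by
  classical
  have h1 : ∀ b : Fin M → Fin L, w (b c) = ∏ c', (if c' = c then w (b c') else 1) := by
    intro b
    rw [Finset.prod_ite_eq' univ c (fun c' => w (b c')), if_pos (mem_univ _)]
  rw [sum_congr rfl fun b _ => h1 b,
    ← Fintype.prod_sum (fun (c' : Fin M) (l : Fin L) => if c' = c then w l else 1)]
  have h2 : ∀ c' : Fin M, (∑ l : Fin L, if c' = c then w l else 1) =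
      if c' = c then ∑ l, w l else L := by
    intro c'
    by_cases h : c' = c
    · simp [h]
    · simp [h]
  rw [prod_congr rfl fun c' _ => h2 c', ← Finset.mul_prod_erase univ _ (mem_univ c), if_pos rfl]
  have h3 : ∏ x ∈ univ.erase c, (if x = c then ∑ l, w l else L) = L ^ (M - 1) := by
    rw [prod_congr rfl fun x hx => if_neg (ne_of_mem_erase hx), prod_const,
      card_erase_of_mem (mem_univ _), card_univ, Fintype.card_fin]
  rw [h3]
  have h4 : L ^ M = L * L ^ (M - 1) := by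
    have h5 : 0 < M := Fin.pos c
    obtain ⟨m, rfl⟩ : ∃ m, M = m + 1 := ⟨M - 1, by omega⟩
    rw [Nat.add_sub_cancel, pow_succ, mul_comm]
  rw [h4]
  ring

open Classical in
theorem xg_core (a n k L N M : ℕ) (ha : 1 ≤ a) (hn : a ≤ n) (hL : 1 ≤ L)
    (hN : N = 6 * a ^ 2 * n) (hM : M = L * N) (τ : Fin M → (Fin k ↪ Fin n))
    (h : (Fin k → Bool) → Fin L) : ∃ b : Fin M → Fin L,
    (∀ z : Fin n → Bool, (a - 1) * N ≤
      a * (Finset.univ.filter (fun c => h (z ∘ τ c) = b c)).card) ∧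
    a * ∑ c, (Finset.univ.filter (fun x : Fin k → Bool => h x = b c)).card ≤
      (a + 1) * (N * 2 ^ k) := by
  let Bz : (Fin n → Bool) → Finset (Fin M → Fin L) := fun z => univ.filter fun b =>
    a * (univ.filter (fun c => h (z ∘ τ c) = b c)).card < (a - 1) * N
  set Bad : Finset (Fin M → Fin L) := univ.biUnion Bz with hBad
  have hcardF : Fintype.card (Fin M → Fin L) = L ^ M := by
    rw [Fintype.card_fun, Fintype.card_fin, Fintype.card_fin]
  have hbad : (a + 1) * Bad.card ≤ L ^ M := by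
    have h2 : (Bad.card : ℝ) ≤ 2 ^ n * ((L : ℝ) ^ M * Real.exp (-(3 * n))) := by
      have h3 : (Bad.card : ℝ) ≤ ∑ z, ((Bz z).card : ℝ) := by
        exact_mod_cast card_biUnion_le
      refine h3.trans ?_
      refine (sum_le_sum fun z _ => bad_card a n L M ha hL (by rw [hM, hN])
        (fun c => h (z ∘ τ c)) (Bz z)
        fun b hb => by rw [← hN]; exact (mem_filter.1 hb).2).trans ?_
      rw [sum_const, card_univ, Fintype.card_fun, Fintype.card_bool, Fintype.card_fin,
        nsmul_eq_mul]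
      push_cast
      exact le_refl _
    have h3 : ((a : ℝ) + 1) ≤ 4 ^ n := by
      have h4 : a + 1 ≤ 4 ^ n := by
        calc a + 1 ≤ n + 1 := by omega
          _ ≤ 4 ^ n := Nat.lt_pow_self (by norm_num)
      exact_mod_cast h4
    have h4 := four_pow n
    have h5 : ((a : ℝ) + 1) * Bad.card ≤ (L : ℝ) ^ M := by
      calc ((a : ℝ) + 1) * Bad.card ≤ 4 ^ n * (2 ^ n * ((L : ℝ) ^ M * Real.exp (-(3 * n)))) :=
            mul_le_mul h3 h2 (by positivity) (by positivity)
        _ = (L : ℝ) ^ M * ((2 : ℝ) ^ n * Real.exp (-(3 * n)) * 4 ^ n) := by ring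
        _ ≤ (L : ℝ) ^ M * 1 := mul_le_mul_of_nonneg_left h4 (by positivity)
        _ = _ := mul_one _
    exact_mod_cast h5
  set Gd : Finset (Fin M → Fin L) := univ \ Bad with hGd
  have hGB : Gd.card + Bad.card = L ^ M := by
    rw [hGd, ← hcardF, ← card_univ]
    exact card_sdiff_add_card_eq_card (subset_univ _)
  have hLM : 0 < L ^ M := Nat.pow_pos hL
  have hgood : a * L ^ M ≤ (a + 1) * Gd.card := by nlinarith
  have hGne : Gd.Nonempty := by
    rw [← card_pos]
    by_contra h0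
    have h1 : Gd.card = 0 := by omega
    rw [h1] at hgood
    nlinarith
  set w : Fin L → ℕ := fun l => (univ.filter (fun x : Fin k → Bool => h x = l)).card with hw
  have hwsum : ∑ l, w l = 2 ^ k := by
    have h1 := Finset.card_eq_sum_card_fiberwise (f := h) (s := (univ : Finset (Fin k → Bool)))
      (t := univ) (fun x _ => by simp)
    rw [card_univ, Fintype.card_fun, Fintype.card_bool, Fintype.card_fin] at h1
    exact h1.symm
  have havg : ∑ b : Fin M → Fin L, ∑ c, w (b c) = N * L ^ M * 2 ^ k := by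
    rw [sum_comm]
    have h1 : ∀ c : Fin M, L * ∑ b : Fin M → Fin L, w (b c) = L ^ M * 2 ^ k := by
      intro c
      rw [avg, hwsum]
    have h2 : L * ∑ c : Fin M, ∑ b : Fin M → Fin L, w (b c) = L * (N * L ^ M * 2 ^ k) := by
      rw [mul_sum, sum_congr rfl fun c _ => h1 c, sum_const, card_univ, Fintype.card_fin,
        smul_eq_mul, hM]
      ring
    exact Nat.eq_of_mul_eq_mul_left hL h2
  have hex : ∃ b ∈ Gd, a * ∑ c, w (b c) ≤ (a + 1) * (N * 2 ^ k) := by
    by_contra hcon
    push Not at hcon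
    have h1 : ∑ b ∈ Gd, (a + 1) * (N * 2 ^ k) < ∑ b ∈ Gd, a * ∑ c, w (b c) :=
      sum_lt_sum_of_nonempty hGne hcon
    have h2 : ∑ b ∈ Gd, a * ∑ c, w (b c) ≤ a * (N * L ^ M * 2 ^ k) := by
      rw [← mul_sum, ← havg]
      exact Nat.mul_le_mul_left _ (sum_le_sum_of_subset (subset_univ _))
    rw [sum_const, smul_eq_mul] at h1
    have h3 : a * (N * L ^ M * 2 ^ k) ≤ Gd.card * ((a + 1) * (N * 2 ^ k)) := by
      calc a * (N * L ^ M * 2 ^ k) = (a * L ^ M) * (N * 2 ^ k) := by ring
        _ ≤ ((a + 1) * Gd.card) * (N * 2 ^ k) := Nat.mul_le_mul_right _ hgood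
        _ = _ := by ring
    omega
  obtain ⟨b, hb, hbw⟩ := hex
  refine ⟨b, fun z => ?_, hbw⟩
  by_contra hcon
  apply (mem_sdiff.1 hb).2
  exact mem_biUnion.2 ⟨z, mem_univ _, mem_filter.2 ⟨mem_univ _, not_le.1 hcon⟩⟩

theorem pf_XG : Pool.Agent.H78.UN2.T_XG := by
  intro a ha
  exact ⟨6 * a ^ 2, a, by nlinarith, fun n hn k L hL τ h =>
    xg_core a n k L _ _ ha hn hL rfl rfl τ h⟩

end Pool.Agent.H22.UN2
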